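import Pool.Agent.W345.GK.Cl2

/-! Project GK: quotients of torsion points are units. -/

set_option autoImplicit false

open Polynomial Finset

namespace Pool.Agent.W486.GK

open Pool.Agent.W345.GK

lemma car_monic {k : Type} [Field k] [Fintype k] (h1 : S_C1) (P : k[X]) (hP : P.Monic) :
    (car P).Monic := by
  obtain ⟨hcar, -, -, hmon, -⟩ := h1 k
  have hq : 1 < Fintype.card k := Fintype.one_lt_card
  rw [hcar P, sum_range_succ, hmon P hP, C_1, one_mul, add_comm]
  refine monic_X_pow_add ?_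
  refine lt_of_le_of_lt (degree_sum_le _ _) ?_
  rw [Finset.sup_lt_iff (by exact WithBot.bot_lt_coe _)]
  intro i hi
  refine lt_of_le_of_lt (degree_C_mul_X_pow_le _ _) ?_
  have h2 : Fintype.card k ^ i < Fintype.card k ^ P.natDegree :=
    Nat.pow_lt_pow_right hq (Finset.mem_range.1 hi)
  exact_mod_cast h2

lemma div_int {k Fc : Type} [Field k] [Fintype k] [Field Fc] [Algebra k[X] Fc] (h1 : S_C1)
    (a : k[X]) (y : Fc) (hy : y ≠ 0) (hint : IsIntegral k[X] y) :
    IsIntegral k[X] (aeval y (car a) / y) := by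
  obtain ⟨hcar, -⟩ := h1 k
  have hq : 0 < Fintype.card k := Fintype.card_pos
  have h2 : aeval y (car a) / y = ∑ i ∈ range (a.natDegree + 1),
      algebraMap k[X] Fc (br a i) * y ^ (Fintype.card k ^ i - 1) := by
    rw [div_eq_iff hy, Finset.sum_mul]
    conv_lhs => rw [hcar a]
    rw [map_sum]
    refine Finset.sum_congr rfl fun i _ => ?_
    rw [map_mul, aeval_C, map_pow, aeval_X, mul_assoc, ← pow_succ]
    congr 2
    have : 0 < Fintype.card k ^ i := Nat.pow_pos hq
    omega
  rw [h2]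
  exact IsIntegral.sum _ fun i _ => isIntegral_algebraMap.mul (hint.pow _)

theorem lau : S_C1 → S_LAU := by
  intro h1 k Fc _ _ _ _ P c hP hirr a ha
  have hL : ∀ a b, c.lam (a * b) = aeval (c.lam b) (car a) :=
    (h1 k).2.2.2.2 Fc c.lam c.add c.smul c.mulX
  have hl0 : c.lam 1 ≠ 0 := by
    intro h
    exact hirr.not_isUnit (isUnit_of_dvd_one ((c.zero_iff 1).1 h))
  have hla : ∀ a, c.lam a = aeval (c.lam 1) (car a) := fun a => by
    rw [← hL a 1, mul_one]
  have hlint : IsIntegral k[X] (c.lam 1) := by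
    refine ⟨car P, car_monic h1 P hP, ?_⟩
    rw [← aeval_def, ← hla P]
    exact (c.zero_iff P).2 dvd_rfl
  have ha0 : c.lam a ≠ 0 := fun h => ha ((c.zero_iff a).1 h)
  have hdiv : IsIntegral k[X] (c.lam a / c.lam 1) := by
    rw [hla a]
    exact div_int h1 a _ hl0 hlint
  have haint : IsIntegral k[X] (c.lam a) := by
    have h2 : c.lam a = (c.lam a / c.lam 1) * c.lam 1 := (div_mul_cancel₀ _ hl0).symm
    rw [h2]
    exact hdiv.mul hlint
  refine ⟨hla a, haint, ha0, hdiv, ?_⟩
  obtain ⟨u, v, huv⟩ := (hirr.coprime_iff_not_dvd).2 ha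
  have h3 : c.lam 1 = aeval (c.lam a) (car v) := by
    rw [← hL v a]
    have h4 := c.add (u * P) (v * a)
    rw [huv, (c.zero_iff (u * P)).2 (dvd_mul_left _ _), zero_add] at h4
    exact h4
  rw [h3]
  exact div_int h1 v _ ha0 haint

end Pool.Agent.W486.GK
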